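import Pool.Agent.D0H73.OP.Stm

/-! # Module CMP of the project OP -/

set_option autoImplicit false

open Finset
open scoped BigOperators

namespace Pool.Agent.D0H42.OP

open Pool.Agent.D0H73.OP
open Pool.Agent.V1192.UOD (V)

noncomputable section

lemma chr_add {p : ℕ} [Fact p.Prime] {N : ℕ} (u v v' : V p N) :
    chr u (v + v') = chr u v * chr u v' := by
  unfold chr
  rw [← AddChar.map_add_eq_mul, ← Finset.sum_add_distrib]
  congr 1
  refine Finset.sum_congr rfl fun j _ => ?_
  simp [mul_add]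

lemma chr_norm {p : ℕ} [Fact p.Prime] {N : ℕ} (u v : V p N) : ‖chr u v‖ = 1 := by
  unfold chr
  exact AddChar.norm_apply _ _

lemma chr_zero {p : ℕ} [Fact p.Prime] {N : ℕ} (u : V p N) : chr u 0 = 1 := by
  unfold chr
  simp

variable {p : ℕ} [Fact p.Prime] {N : ℕ → ℕ} {n : ℕ}

lemma Ex_sum {ι : Type} (s : Finset ι) (i : Fin n) (F : ι → H p N n → ℂ) (c : ι → ℂ) :
    ∑ t ∈ s, Ex i (F t) * c t = Ex i (fun g => ∑ t ∈ s, F t g * c t) := by
  unfold Ex
  simp only [Finset.mul_sum, Finset.sum_mul]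
  rw [Finset.sum_comm]
  refine Finset.sum_congr rfl fun j _ => ?_
  rw [Finset.sum_comm]
  refine Finset.sum_congr rfl fun a _ => ?_
  refine Finset.sum_congr rfl fun t _ => ?_
  ring

lemma Ex_sub (i : Fin n) (F G : H p N n → ℂ) :
    Ex i (fun g => F g - G g) = Ex i F - Ex i G := by
  unfold Ex
  simp only [Finset.sum_sub_distrib, mul_sub]

lemma Ex_congr (i : Fin n) (F G : H p N n → ℂ)
    (h : ∀ j a, F (Pi.single i (Pi.single j a)) = G (Pi.single i (Pi.single j a))) :
    Ex i F = Ex i G := by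
  unfold Ex
  congr 1
  exact Finset.sum_congr rfl fun j _ => Finset.sum_congr rfl fun a _ => h j a

lemma prod_B (d : (i : Fin n) → V p (N i) → ℕ) (k : ℕ) (kk k1 : Fin n) (hk : (kk : ℕ) = k)
    (hk1 : (k1 : ℕ) = k + 1) (z ζ : ℂ) (g : H p N n)
    [Decidable (∀ i : Fin n, k + 1 < (i : ℕ) → d i (g i) = 0)] :
    ∏ i, (sv k z ζ i) ^ d i (g i) =
      if (∀ i : Fin n, k + 1 < (i : ℕ) → d i (g i) = 0) then
        z ^ d kk (g kk) * ζ ^ d k1 (g k1) else 0 := by
  split_ifs with hP
  · have : ∀ i : Fin n, (sv k z ζ i) ^ d i (g i) =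
        (if i = kk then z ^ d kk (g kk) else 1) * (if i = k1 then ζ ^ d k1 (g k1) else 1) := by
      intro i
      unfold sv
      by_cases h1 : (i : ℕ) < k
      · have a1 : i ≠ kk := by rintro rfl; omega
        have a2 : i ≠ k1 := by rintro rfl; omega
        simp [h1, a1, a2]
      · by_cases h2 : (i : ℕ) = k
        · have a1 : i = kk := Fin.ext (by omega)
          subst a1
          have a2 : i ≠ k1 := by rintro rfl; omega
          simp [h2, a2]
        · by_cases h3 : (i : ℕ) = k + 1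
          · have a1 : i = k1 := Fin.ext (by omega)
            subst a1
            have a2 : i ≠ kk := by rintro rfl; omega
            simp [h3, a2]
          · have h4 : k + 1 < (i : ℕ) := by omega
            have a1 : i ≠ kk := by rintro rfl; omega
            have a2 : i ≠ k1 := by rintro rfl; omega
            simp [a1, a2, hP i h4]
    rw [Finset.prod_congr rfl fun i _ => this i, Finset.prod_mul_distrib,
      Finset.prod_ite_eq', Finset.prod_ite_eq']
    simp
  · push Not at hP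
    obtain ⟨i, hi, hdi⟩ := hP
    refine Finset.prod_eq_zero (Finset.mem_univ i) ?_
    unfold sv
    rw [if_neg (by omega), if_neg (by omega), if_neg (by omega)]
    exact zero_pow hdi

lemma prod_A (d : (i : Fin n) → V p (N i) → ℕ) (K : ℕ) (k1 : Fin n) (hk1 : (k1 : ℕ) = K)
    (ζ : ℂ) (g : H p N n) [Decidable (∀ i : Fin n, K < (i : ℕ) → d i (g i) = 0)] :
    ∏ i, (sv K ζ 0 i) ^ d i (g i) =
      if (∀ i : Fin n, K < (i : ℕ) → d i (g i) = 0) then ζ ^ d k1 (g k1) else 0 := by
  split_ifs with hP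
  · have : ∀ i : Fin n, (sv K ζ 0 i) ^ d i (g i) =
        (if i = k1 then ζ ^ d k1 (g k1) else 1) := by
      intro i
      unfold sv
      by_cases h1 : (i : ℕ) < K
      · have a1 : i ≠ k1 := by rintro rfl; omega
        simp [h1, a1]
      · by_cases h2 : (i : ℕ) = K
        · have a1 : i = k1 := Fin.ext (by omega)
          subst a1
          simp [h2]
        · have h4 : K < (i : ℕ) := by omega
          have a1 : i ≠ k1 := by rintro rfl; omega
          simp [a1, hP i h4]
    rw [Finset.prod_congr rfl fun i _ => this i, Finset.prod_ite_eq']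
    simp
  · push Not at hP
    obtain ⟨i, hi, hdi⟩ := hP
    refine Finset.prod_eq_zero (Finset.mem_univ i) ?_
    unfold sv
    rw [if_neg (by omega), if_neg (by omega)]
    split_ifs <;> exact zero_pow hdi

open Classical in
lemma fib_sum (kk : Fin n) (h : H p N n → ℂ) (T : V p (N kk) → ℂ) :
    ∑ v, (∑ g ∈ univ.filter (fun g : H p N n => g kk = v), h g) * T v = ∑ g, h g * T (g kk) := by
  rw [← Finset.sum_fiberwise univ (fun g : H p N n => g kk) (fun g => h g * T (g kk))]
  refine Finset.sum_congr rfl fun v _ => ?_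
  rw [Finset.sum_mul]
  refine Finset.sum_congr rfl fun g hg => ?_
  rw [(Finset.mem_filter.1 hg).2]

open Classical in
lemma ind_bound (hA : S_AAF) (hN : ∀ i, 0 < N i) (hw : ∀ k, 0 < w p k)
    (m : (i : Fin n) → V p (N i) → ℝ)
    (ma : ∀ i v, ∑ g ∈ univ.filter (fun g : H p N n => g i = v), ‖(aa g : ℂ)‖ ≤ m i v)
    (kk : Fin n) (v : V p (N kk)) :
    ‖(w p kk : ℂ) * Ex kk (fun g : H p N n => if g kk = v then (1 : ℂ) else 0)‖ ≤ m kk v := by
  set Ind : H p N n → ℂ := fun g => if g kk = v then (1 : ℂ) else 0 with hInd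
  have hp1 : (0 : ℝ) ≤ (p : ℝ) - 1 := by
    have : (1 : ℝ) ≤ p := by exact_mod_cast (Fact.out : p.Prime).one_le
    linarith
  have hreal : ∀ i : Fin n, ∃ t : ℝ, 0 ≤ t ∧ Ex i Ind = (t : ℂ) := by
    intro i
    refine ⟨(1 / ((N i : ℝ) * ((p : ℝ) - 1))) *
      ∑ j : Fin (N i), ∑ a ∈ (univ : Finset (ZMod p)).erase 0,
        (if (Pi.single i (Pi.single j a) : H p N n) kk = v then (1 : ℝ) else 0), ?_, ?_⟩
    · refine mul_nonneg (by positivity) (Finset.sum_nonneg fun j _ => Finset.sum_nonneg fun a _ => ?_)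
      split_ifs <;> norm_num
    · unfold Ex
      rw [hInd]
      push_cast
      congr 1
      refine Finset.sum_congr rfl fun j _ => Finset.sum_congr rfl fun a _ => ?_
      split_ifs <;> simp
  choose t ht0 ht using hreal
  have h1 : ap aa Ind = ((∑ i : Fin n, w p i * t i : ℝ) : ℂ) := by
    rw [(hA p N n hN).1 Ind]
    push_cast
    exact Finset.sum_congr rfl fun i _ => by rw [ht i]
  have h2 : ‖(w p kk : ℂ) * Ex kk Ind‖ = w p kk * t kk := by
    rw [ht kk, ← Complex.ofReal_mul, Complex.norm_real, Real.norm_eq_abs,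
      abs_of_nonneg (mul_nonneg (hw kk).le (ht0 kk))]
  rw [h2]
  have h3 : w p kk * t kk ≤ ∑ i : Fin n, w p i * t i :=
    Finset.single_le_sum (f := fun i : Fin n => w p i * t i)
      (fun i _ => mul_nonneg (hw i).le (ht0 i)) (Finset.mem_univ kk)
  have h4 : ∑ i : Fin n, w p i * t i ≤ ‖ap aa Ind‖ := by
    rw [h1, Complex.norm_real]
    exact le_abs_self _
  have h5 : ‖ap aa Ind‖ ≤ ∑ g ∈ univ.filter (fun g : H p N n => g kk = v), ‖(aa g : ℂ)‖ := by
    unfold ap
    rw [Finset.sum_filter]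
    refine (norm_sum_le _ _).trans (Finset.sum_le_sum fun g _ => ?_)
    rw [hInd]
    simp only
    split_ifs <;> simp
  exact h3.trans (h4.trans (h5.trans (ma kk v)))

/-- Module CMP. -/
theorem t_CMP : S_CONC → S_NUM → S_AAF → S_VAL → S_CMP := by
  classical
  intro hC hNum hA hV p _ N l x y d m hN hD k χ hkl hχ r hr hr8
  obtain ⟨hw, htau, -⟩ := hNum p
  obtain ⟨kk, hkk⟩ : ∃ kk : Fin (l + 2), (kk : ℕ) = k := ⟨⟨k, by omega⟩, rfl⟩
  obtain ⟨k1, hk1⟩ : ∃ k1 : Fin (l + 2), (k1 : ℕ) = k + 1 := ⟨⟨k + 1, by omega⟩, rfl⟩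
  subst hkk
  have hwp : ∀ i, 0 < w p i := fun i => (hw i).1
  have hwk : 0 < w p kk := hwp _
  have hwk1 : w p kk ≤ 1 := (hw _).2.1
  have hp0 : (0 : ℝ) < p := by exact_mod_cast (Fact.out : p.Prime).pos
  have hp1 : (1 : ℝ) ≤ p := by exact_mod_cast (Fact.out : p.Prime).one_le
  set q : ℝ := -r / w p kk with hqdef
  have hwq : w p kk * q = -r := by rw [hqdef]; field_simp
  have hq : |q| ≤ 1 / (8 * p) := by
    rw [hqdef, abs_div, abs_neg, abs_of_pos hwk, div_le_iff₀ hwk]
    calc |r| ≤ w p kk / (8 * p) := hr8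
      _ = 1 / (8 * p) * w p kk := by ring
  have hq2 : |q| ≤ 1 / 2 := by
    refine hq.trans ?_
    rw [div_le_div_iff₀ (by positivity) (by norm_num)]
    linarith
  -- the number of values of `d k1`
  set J : ℕ := ∑ v : V p (N k1), d k1 v with hJ
  have hJb : ∀ v, d k1 v < J + 1 := fun v =>
    Nat.lt_succ_of_le (Finset.single_le_sum (f := fun v => d k1 v) (fun _ _ => Nat.zero_le _)
      (Finset.mem_univ v))
  set P : H p N (l + 2) → Prop := fun g => ∀ i : Fin (l + 2), (kk : ℕ) + 1 < (i : ℕ) → d i (g i) = 0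
    with hP
  set A : V p (N kk) → ℂ := fun v =>
    (w p kk : ℂ) * Ex kk (fun g : H p N (l + 2) => if g kk = v then (1 : ℂ) else 0) with hAdef
  set B : Fin (J + 1) → V p (N kk) → ℂ := fun j v =>
    ∑ g ∈ univ.filter (fun g : H p N (l + 2) => g kk = v),
      if P g ∧ d k1 (g k1) = (j : ℕ) then x g * χ g else 0 with hBdef
  have hm0 : ∀ v, 0 ≤ m kk v := fun v =>
    (Finset.sum_nonneg fun g _ => norm_nonneg (x g)).trans (hD.mx kk v)
  have hAb : ∀ v, ‖A v‖ ≤ m kk v := fun v => ind_bound hA hN hwp m hD.ma kk v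
  have hBb : ∀ j v, ‖B j v‖ ≤ m kk v := by
    intro j v
    rw [hBdef]
    refine (norm_sum_le _ _).trans ((Finset.sum_le_sum fun g _ => ?_).trans (hD.mx kk v))
    split_ifs
    · rw [norm_mul, hχ.norm, mul_one]
    · rw [norm_zero]; exact norm_nonneg _
  have ht0 : 0 < tau p kk := (htau _).1
  obtain ⟨u, hu⟩ := hC p (N kk) (m kk) 16 (tau p kk) (d kk) (by norm_num) ht0 (htau _).2.1
    (hD.pkg kk) hm0 (hD.msym kk) (hD.mtot kk) q hq (Option (Fin (J + 1)))
    (fun o => o.elim A B) (fun o => o.elim (1 : ℝ) (fun j => (1 / 2 : ℝ) ^ (j : ℕ)))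
    (by
      intro i
      cases i with
      | none => simp
      | some j => simp only [Option.elim_some]; positivity)
    (by
      intro i v
      cases i with
      | none => exact hAb v
      | some j => exact hBb j v)
  rw [Fintype.sum_option, Fintype.sum_option] at hu
  simp only [Option.elim_none, Option.elim_some, one_mul] at hu
  have hgeo : ∑ j : Fin (J + 1), (1 / 2 : ℝ) ^ (j : ℕ) ≤ 2 := by
    rw [Fin.sum_univ_eq_sum_range (fun j => (1 / 2 : ℝ) ^ j) (J + 1)]
    exact sum_geometric_two_le _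
  have hw1 : 0 < w p (kk + 1) := hwp _
  have hsq : Real.sqrt (tau p kk) = w p (kk + 1) ^ 2 / 10 ^ 5 := by
    have : tau p kk = (w p (kk + 1) ^ 2 / 10 ^ 5) ^ 2 := by
      unfold tau
      ring
    rw [this, Real.sqrt_sq (by positivity)]
  set E : ℝ := 144 * (w p (kk + 1) ^ 2 / 10 ^ 5) with hE
  have hu' : (1 + ∑ j : Fin (J + 1), (1 / 2 : ℝ) ^ (j : ℕ)) * (3 * 16 * Real.sqrt (tau p kk)) ≤ E := by
    rw [hsq, hE]
    have h0 : (0 : ℝ) ≤ 3 * 16 * (w p (kk + 1) ^ 2 / 10 ^ 5) := by positivity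
    nlinarith [mul_le_mul_of_nonneg_right hgeo h0]
  have hu2 := hu.trans hu'
  set T : V p (N kk) → ℂ := fun v => chr u v - (q : ℂ) ^ d kk v with hT
  have hS0 : (0 : ℝ) ≤ ∑ j : Fin (J + 1), (1 / 2 : ℝ) ^ (j : ℕ) * ‖∑ v, B j v * T v‖ :=
    Finset.sum_nonneg fun j _ => by positivity
  have hEA : ‖∑ v, A v * T v‖ ≤ E := by linarith
  have hEB : ∑ j : Fin (J + 1), (1 / 2 : ℝ) ^ (j : ℕ) * ‖∑ v, B j v * T v‖ ≤ E := by
    have := norm_nonneg (∑ v, A v * T v)
    linarith
  -- rewriting the two families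
  have hAsum : ∑ v, A v * T v = (w p kk : ℂ) * Ex kk (fun g : H p N (l + 2) => T (g kk)) := by
    have h1 : ∑ v, A v * T v = (w p kk : ℂ) *
        ∑ v, Ex kk (fun g : H p N (l + 2) => if g kk = v then (1 : ℂ) else 0) * T v := by
      rw [Finset.mul_sum]
      exact Finset.sum_congr rfl fun v _ => by rw [hAdef]; ring
    rw [h1, Ex_sum univ kk (fun v => fun g : H p N (l + 2) => if g kk = v then (1 : ℂ) else 0) T]
    congr 2
    funext g
    simp
  have hBsum : ∀ j, ∑ v, B j v * T v =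
      ∑ g : H p N (l + 2), (if P g ∧ d k1 (g k1) = (j : ℕ) then x g * χ g else 0) * T (g kk) :=
    fun j => fib_sum kk _ T
  -- the new character
  set χ' : H p N (l + 2) → ℂ := fun g => χ g * chr u (g kk) with hχ'
  have hadd : ∀ g h, χ' (g + h) = χ' g * χ' h := by
    intro g h
    simp only [hχ', hχ.add g h, Pi.add_apply, chr_add]
    ring
  have hnorm : ∀ g, ‖χ' g‖ = 1 := by
    intro g
    simp only [hχ', norm_mul, hχ.norm, chr_norm, mul_one]
  have htriv : ∀ g : H p N (l + 2), (∀ i : Fin (l + 2), (i : ℕ) < kk + 1 → g i = 0) → χ' g = 1 := by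
    intro g hg
    simp only [hχ']
    rw [hχ.triv g (fun i hi => hg i (by omega)), hg kk (by omega), chr_zero, one_mul]
  have hEx1 : Ex kk χ' = Ex kk (fun g : H p N (l + 2) => chr u (g kk)) := by
    refine Ex_congr kk _ _ fun j a => ?_
    simp only [hχ']
    rw [hχ.triv, one_mul]
    intro i hi
    exact Pi.single_eq_of_ne (by rintro rfl; omega) _
  have hEx2 : Ex kk (fun g : H p N (l + 2) => (q : ℂ) ^ d kk (g kk)) =
      Ex kk (Ph d χ (sv kk (q : ℂ) 0)) := by
    refine Ex_congr kk _ _ fun j a => ?_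
    unfold Ph
    rw [hχ.triv, one_mul, prod_B d kk kk k1 rfl hk1, if_pos]
    · have h1 : (Pi.single kk (Pi.single j a) : H p N (l + 2)) k1 = 0 :=
        Pi.single_eq_of_ne (by rintro rfl; omega) _
      rw [h1, (hD.pkg k1).zero, pow_zero, mul_one]
    · intro i hi
      have h1 : (Pi.single kk (Pi.single j a) : H p N (l + 2)) i = 0 :=
        Pi.single_eq_of_ne (by rintro rfl; omega) _
      rw [h1, (hD.pkg i).zero]
    · intro i hi
      exact Pi.single_eq_of_ne (by rintro rfl; omega) _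
  have hEx3 : ‖Ex kk (Ph d χ (sv kk (q : ℂ) 0)) - (q : ℂ)‖ ≤ 2 * tau p kk := by
    have h1 := (hV p N (l + 2) d m (fun i => tau p i) kk χ (sv kk (q : ℂ) 0) hN hD.pkg hχ
      (by
        intro i hi
        unfold sv
        rw [if_pos hi])
      (by
        intro i hi
        unfold sv
        rw [if_neg (by omega)]
        split_ifs
        · rw [Complex.norm_real]; exact hq2
        · simp
        · simp)).1 kk le_rfl
    have h2 : sv (kk : ℕ) (q : ℂ) 0 kk = (q : ℂ) := by
      unfold sv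
      rw [if_neg (by omega), if_pos rfl]
    rwa [h2] at h1
  obtain ⟨ρ, hρ⟩ := (hA p N (l + 2) hN).2.2.2 kk χ' hadd hnorm
  have hEx4 : ‖(w p kk : ℂ) * ((ρ : ℂ) - (q : ℂ))‖ ≤ E + 2 * tau p kk := by
    have h1 : (w p kk : ℂ) * ((ρ : ℂ) - (q : ℂ)) =
        ∑ v, A v * T v + (w p kk : ℂ) * (Ex kk (Ph d χ (sv kk (q : ℂ) 0)) - (q : ℂ)) := by
      rw [hAsum, ← hρ, hEx1]
      have h2 : Ex kk (fun g : H p N (l + 2) => T (g kk)) =
          Ex kk (fun g : H p N (l + 2) => chr u (g kk)) -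
            Ex kk (fun g : H p N (l + 2) => (q : ℂ) ^ d kk (g kk)) :=
        Ex_sub kk _ _
      rw [h2, hEx2]
      ring
    rw [h1]
    refine (norm_add_le _ _).trans (add_le_add hEA ?_)
    rw [norm_mul, Complex.norm_real, Real.norm_eq_abs, abs_of_pos hwk]
    calc w p kk * ‖Ex kk (Ph d χ (sv kk (q : ℂ) 0)) - (q : ℂ)‖
        ≤ 1 * (2 * tau p kk) := mul_le_mul hwk1 hEx3 (norm_nonneg _) (by norm_num)
      _ = 2 * tau p kk := one_mul _
  have htt : tt (kk + 1) χ' = (r : ℂ) + (w p kk : ℂ) * (ρ : ℂ) := by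
    unfold tt
    have h1 : univ.filter (fun i : Fin (l + 2) => (i : ℕ) < kk + 1) =
        insert kk (univ.filter (fun i : Fin (l + 2) => (i : ℕ) < kk)) := by
      ext i
      simp only [Finset.mem_filter, Finset.mem_univ, true_and, Finset.mem_insert]
      constructor
      · intro h
        by_cases h2 : (i : ℕ) < kk
        · exact Or.inr h2
        · exact Or.inl (Fin.ext (by omega))
      · rintro (rfl | h)
        · omega
        · omega
    rw [h1, Finset.sum_insert (by simp), hρ, ← hr, add_comm]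
    congr 1
    unfold tt
    refine Finset.sum_congr rfl fun i hi => ?_
    have hi' : (i : ℕ) < kk := (Finset.mem_filter.1 hi).2
    congr 1
    refine Ex_congr i _ _ fun j a => ?_
    simp only [hχ']
    have h2 : (Pi.single i (Pi.single j a) : H p N (l + 2)) kk = 0 :=
      Pi.single_eq_of_ne (by rintro rfl; omega) _
    rw [h2, chr_zero, mul_one]
  have hw1k : w p (kk + 1) = w p kk ^ 2 / (1000 * p) := rfl
  have hw1p : w p (kk + 1) ≤ 1 / (1000 * p) := by
    rw [hw1k]
    exact div_le_div_of_nonneg_right (pow_le_one₀ hwk.le hwk1) (by positivity)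
  have hw11 : w p (kk + 1) ≤ 1 := (hw _).2.1
  have hEt : E + 2 * tau p kk ≤ w p (kk + 1) / (8 * p) := by
    have h1 : w p (kk + 1) ^ 2 ≤ w p (kk + 1) * (1 / (1000 * p)) := by
      rw [pow_two]
      exact mul_le_mul_of_nonneg_left hw1p hw1.le
    have h2 : tau p kk ≤ w p (kk + 1) ^ 2 / 10 ^ 10 := by
      unfold tau
      refine div_le_div_of_nonneg_right ?_ (by positivity)
      exact pow_le_pow_of_le_one hw1.le hw11 (by norm_num)
    have h3 : w p (kk + 1) * (1 / (1000 * p)) ≤ w p (kk + 1) / (8 * p) := by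
      rw [mul_one_div]
      exact div_le_div_of_nonneg_left hw1.le (by positivity) (by linarith)
    have h4 : (0 : ℝ) ≤ w p (kk + 1) ^ 2 := by positivity
    rw [hE]
    have h5 : 144 * (w p (kk + 1) ^ 2 / 10 ^ 5) + 2 * (w p (kk + 1) ^ 2 / 10 ^ 10) ≤
        w p (kk + 1) ^ 2 := by nlinarith
    linarith
  refine ⟨χ', ⟨hadd, hnorm, htriv⟩, ⟨r + w p kk * ρ, ?_, ?_⟩, ?_⟩
  · rw [htt]
    push_cast
    ring
  · have h1 : r + w p kk * ρ = w p kk * (ρ - q) := by
      rw [mul_sub, hwq]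
      ring
    have h2 : ‖(w p kk : ℂ) * ((ρ : ℂ) - (q : ℂ))‖ = |w p kk * (ρ - q)| := by
      rw [← Complex.ofReal_sub, ← Complex.ofReal_mul, Complex.norm_real, Real.norm_eq_abs]
    rw [h1, ← h2]
    exact hEx4.trans hEt
  · intro ζ hζ
    have h1 : ap x (Ph d χ' (sv (kk + 1) ζ 0)) - ap x (Ph d χ (sv kk (q : ℂ) ζ)) =
        ∑ j : Fin (J + 1), ζ ^ (j : ℕ) * ∑ v, B j v * T v := by
      have h2 : ∀ g : H p N (l + 2), x g * Ph d χ' (sv (kk + 1) ζ 0) g -
          x g * Ph d χ (sv kk (q : ℂ) ζ) g =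
          if P g then ζ ^ d k1 (g k1) * (x g * χ g * T (g kk)) else 0 := by
        intro g
        unfold Ph
        rw [prod_A d (kk + 1) k1 hk1, prod_B d kk kk k1 rfl hk1]
        by_cases hPg : P g
        · have hPg' : ∀ i : Fin (l + 2), (kk : ℕ) + 1 < (i : ℕ) → d i (g i) = 0 := hPg
          rw [if_pos hPg', if_pos hPg', if_pos hPg]
          simp only [hχ', hT]
          ring
        · have hPg' : ¬ ∀ i : Fin (l + 2), (kk : ℕ) + 1 < (i : ℕ) → d i (g i) = 0 := hPg
          rw [if_neg hPg', if_neg hPg', if_neg hPg]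
          ring
      unfold ap
      rw [← Finset.sum_sub_distrib]
      rw [Finset.sum_congr rfl fun g _ => h2 g]
      simp only [hBsum, Finset.mul_sum]
      rw [Finset.sum_comm]
      refine Finset.sum_congr rfl fun g _ => ?_
      by_cases hPg : P g
      · rw [if_pos hPg]
        rw [Finset.sum_eq_single (⟨d k1 (g k1), hJb _⟩ : Fin (J + 1))]
        · rw [if_pos ⟨hPg, rfl⟩]
        · intro j _ hj
          rw [if_neg, zero_mul, mul_zero]
          rintro ⟨_, h3⟩
          exact hj (Fin.ext h3.symm)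
        · intro h3
          exact absurd (Finset.mem_univ _) h3
      · rw [if_neg hPg]
        refine (Finset.sum_eq_zero fun j _ => ?_).symm
        rw [if_neg (fun h3 => hPg h3.1), zero_mul, mul_zero]
    rw [h1]
    refine (norm_sum_le _ _).trans ?_
    have h3 : ∑ j : Fin (J + 1), ‖ζ ^ (j : ℕ) * ∑ v, B j v * T v‖ ≤
        ∑ j : Fin (J + 1), (1 / 2 : ℝ) ^ (j : ℕ) * ‖∑ v, B j v * T v‖ := by
      refine Finset.sum_le_sum fun j _ => ?_
      rw [norm_mul, norm_pow]
      exact mul_le_mul_of_nonneg_right (pow_le_pow_left₀ (norm_nonneg _) hζ _) (norm_nonneg _)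
    refine h3.trans (hEB.trans ?_)
    rw [hE]
    have h4 : (0 : ℝ) ≤ w p (kk + 1) ^ 2 := by positivity
    nlinarith

end

end Pool.Agent.D0H42.OP
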